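import Pool.Agent.W278.EM.Stms

/-!
# The representations of the Haar integrals
-/

set_option autoImplicit false
open MeasureTheory Finset

namespace Pool.Agent.W82.EM

open Pool.Agent.Helper873.OneVar Pool.Agent.Helper873.Product Pool.Agent.Helper873.Monomial
  Pool.Agent.Helper873.Alg Pool.Agent.Helper873.NT Pool.Agent.W278.EM

open Classical in
/-- Indicator of the numbers with prime indices below `a`. -/
noncomputable def chi (n a : ℕ) : ℂ := if ∀ k ∈ range n, ex n k ≠ 0 → k < a then 1 else 0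

theorem mon_tr (n a : ℕ) (w : ℕ → ℂ) : mon n (tr a w) = chi n a * mon n w := by
  unfold mon chi
  by_cases h : ∀ k ∈ range n, ex n k ≠ 0 → k < a
  · rw [if_pos h, one_mul]
    refine prod_congr rfl fun k hk => ?_
    by_cases h2 : ex n k = 0
    · rw [h2, pow_zero, pow_zero]
    · unfold tr
      rw [if_pos (h k hk h2)]
  · rw [if_neg h, zero_mul]
    push Not at h
    obtain ⟨k, hk, h2, h3⟩ := h
    refine prod_eq_zero hk ?_
    unfold tr
    rw [if_neg (by omega), zero_pow h2]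

/-- A block is an exponential polynomial without constant term. -/
theorem dl_exp (c : ℕ →₀ ℂ) (l : ℕ) : ∃ (T : Finset ℕ) (b : ℕ → ℂ) (lam : ℕ → ℝ),
    (∀ n ∈ T, 0 < lam n) ∧
      ∀ s : ℂ, dl c l (vs s) = ∑ n ∈ T, b n * Complex.exp (-(lam n : ℂ) * s) := by
  classical
  let κ : ℕ → ℂ := fun m => chi (m + 1) (nn (l + 1)) - chi (m + 1) (nn l)
  have hκ0 : κ 0 = 0 := by
    have h1 : ∀ a : ℕ, chi (0 + 1) a = 1 := by
      intro a
      unfold chi
      refine if_pos ?_
      intro k _ h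
      exfalso
      apply h
      unfold ex
      simp
    change chi (0 + 1) _ - chi (0 + 1) _ = 0
    rw [h1, h1, sub_self]
  refine ⟨c.support.filter (fun m => m ≠ 0), fun m => c m * κ m,
    fun m => Real.log ((m : ℝ) + 1), ?_, ?_⟩
  · intro n hn
    rw [mem_filter] at hn
    refine Real.log_pos ?_
    have : (0 : ℝ) < n := by exact_mod_cast Nat.pos_of_ne_zero hn.2
    linarith
  · intro s
    have h1 : dl c l (vs s) = ∑ m ∈ c.support, c m * κ m * ((m : ℂ) + 1) ^ (-s) := by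
      unfold dl poly Finsupp.sum
      rw [← sum_sub_distrib]
      refine sum_congr rfl fun m _ => ?_
      change c m * mon (m + 1) (tr (nn (l + 1)) (vs s)) - c m * mon (m + 1) (tr (nn l) (vs s)) =
        c m * (chi (m + 1) (nn (l + 1)) - chi (m + 1) (nn l)) * _
      rw [mon_tr, mon_tr, mon_vs (m + 1) (by omega)]
      push_cast
      ring
    rw [h1]
    symm
    refine sum_subset_zero_on_sdiff (filter_subset _ _) ?_ ?_
    · intro m hm
      rw [mem_sdiff, mem_filter, not_and_or, not_not] at hm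
      rcases hm.2 with h2 | h2
      · exact absurd hm.1 h2
      · rw [h2, hκ0, mul_zero, zero_mul]
    · intro m _
      congr 1
      have h2 : ((m : ℂ) + 1) ≠ 0 := by exact_mod_cast Nat.succ_ne_zero m
      rw [Complex.cpow_def_of_ne_zero h2]
      congr 1
      have h3 : Complex.log ((m : ℂ) + 1) = ((Real.log ((m : ℝ) + 1) : ℝ) : ℂ) := by
        rw [Complex.ofReal_log (by positivity)]
        push_cast
        rfl
      rw [h3]
      ring

/-- The basic integral over a circle. -/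
theorem phi_integral (r : ℝ) (hr : 0 < r) :
    ∫ φ in (0 : ℝ)..(2 * Real.pi), Complex.exp (-(φ : ℂ) * Complex.I) *
      Complex.exp (-(r : ℂ) * Complex.exp ((φ : ℂ) * Complex.I)) =
    -(2 * Real.pi * r : ℝ) := by
  have hd : DiffContOnCl ℂ (fun z : ℂ => Complex.exp (-z)) (Metric.ball 0 r) := by
    apply Differentiable.diffContOnCl
    fun_prop
  have h1 := hd.deriv_eq_smul_circleIntegral hr
  have h2 : deriv (fun z : ℂ => Complex.exp (-z)) 0 = -1 := by
    have h3 : HasDerivAt (fun z : ℂ => Complex.exp (-z)) (Complex.exp (-0) * (-1)) 0 :=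
      (hasDerivAt_neg (0 : ℂ)).cexp
    rw [h3.deriv, neg_zero, Complex.exp_zero, one_mul]
  rw [h2, circleIntegral] at h1
  have hr0 : (r : ℂ) ≠ 0 := by exact_mod_cast hr.ne'
  have h3 : ∀ θ : ℝ, deriv (circleMap 0 r) θ • ((1 / (circleMap 0 r θ - 0) ^ 2) •
      Complex.exp (-(circleMap 0 r θ))) = (Complex.I / r) * (Complex.exp (-(θ : ℂ) * Complex.I) *
      Complex.exp (-(r : ℂ) * Complex.exp ((θ : ℂ) * Complex.I))) := by
    intro θ
    rw [deriv_circleMap, circleMap_zero, smul_eq_mul, smul_eq_mul, sub_zero]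
    have h4 : Complex.exp (-(θ : ℂ) * Complex.I) = (Complex.exp ((θ : ℂ) * Complex.I))⁻¹ := by
      rw [← Complex.exp_neg]
      congr 1
      ring
    have h5 : Complex.exp ((θ : ℂ) * Complex.I) ≠ 0 := Complex.exp_ne_zero _
    rw [h4, neg_mul]
    field_simp
  simp only [h3] at h1
  rw [intervalIntegral.integral_const_mul, smul_eq_mul] at h1
  set J := ∫ φ in (0 : ℝ)..(2 * Real.pi), Complex.exp (-(φ : ℂ) * Complex.I) *
        Complex.exp (-(r : ℂ) * Complex.exp ((φ : ℂ) * Complex.I)) with hJ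
  have hI : Complex.I ≠ 0 := Complex.I_ne_zero
  have h7 : J = (r / Complex.I) * (Complex.I / r * J) := by
    field_simp
  rw [h7, h1]
  push_cast
  field_simp

/-- Closed form of the Haar integrals. -/
theorem HI_eq (c : ℕ →₀ ℂ) (l m i : ℕ) (T : Finset ℕ) (b : ℕ → ℂ) (lam : ℕ → ℝ)
    (hlam : ∀ n ∈ T, 0 < lam n)
    (h : ∀ s : ℂ, dl c l (vs s) = ∑ n ∈ T, b n * Complex.exp (-(lam n : ℂ) * s)) :
    HI c l m i = ∑ n ∈ T, b n * (Complex.exp (-(lam n : ℂ) / 2) *
      Complex.exp (-(lam n : ℂ) * Complex.I * ((i : ℂ) / 2 ^ m)) *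
      (1 - Complex.exp (-(lam n : ℂ) * Complex.I * (1 / 2 ^ (m + 1)))) ^ 2 *
        (-Complex.I / lam n)) := by
  unfold HI
  have h1 : ∀ t : ℝ, dl c l (vs (pt 0 0 t)) - dl c l (vs (pt 0 0 (t + 1 / 2 ^ (m + 1)))) =
      ∑ n ∈ T, b n * (Complex.exp (-(lam n : ℂ) / 2) *
        (1 - Complex.exp (-(lam n : ℂ) * Complex.I * (1 / 2 ^ (m + 1))))) *
        Complex.exp ((-(lam n : ℂ) * Complex.I) * t) := by
    intro t
    rw [h, h, ← sum_sub_distrib]
    refine sum_congr rfl fun n _ => ?_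
    have e1 : Complex.exp (-(lam n : ℂ) * pt 0 0 t) = Complex.exp (-(lam n : ℂ) / 2) *
        Complex.exp ((-(lam n : ℂ) * Complex.I) * t) := by
      rw [← Complex.exp_add]
      congr 1
      unfold pt
      push_cast
      ring
    have e2 : Complex.exp (-(lam n : ℂ) * pt 0 0 (t + 1 / 2 ^ (m + 1))) =
        Complex.exp (-(lam n : ℂ) / 2) *
        Complex.exp (-(lam n : ℂ) * Complex.I * (1 / 2 ^ (m + 1))) *
        Complex.exp ((-(lam n : ℂ) * Complex.I) * t) := by
      rw [← Complex.exp_add, ← Complex.exp_add]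
      congr 1
      unfold pt
      push_cast
      ring
    rw [e1, e2]
    ring
  simp only [h1]
  rw [intervalIntegral.integral_finsetSum]
  · refine sum_congr rfl fun n hn => ?_
    have hc : (-(lam n : ℂ) * Complex.I) ≠ 0 := by
      have := (hlam n hn).ne'
      simp [Complex.I_ne_zero, this]
    have hl : (lam n : ℂ) ≠ 0 := by exact_mod_cast (hlam n hn).ne'
    rw [intervalIntegral.integral_const_mul, integral_exp_mul_complex hc]
    have e1 : Complex.exp (-(lam n : ℂ) * Complex.I *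
        (((i : ℝ) / 2 ^ m + 1 / 2 ^ (m + 1) : ℝ) : ℂ)) =
        Complex.exp (-(lam n : ℂ) * Complex.I * ((i : ℂ) / 2 ^ m)) *
        Complex.exp (-(lam n : ℂ) * Complex.I * (1 / 2 ^ (m + 1))) := by
      rw [← Complex.exp_add]
      congr 1
      push_cast
      ring
    have e2 : (((i : ℝ) / 2 ^ m : ℝ) : ℂ) = (i : ℂ) / 2 ^ m := by push_cast; ring
    rw [e1, e2]
    set q := Complex.exp (-(lam n : ℂ) * Complex.I * (1 / 2 ^ (m + 1)))
    set E := Complex.exp (-(lam n : ℂ) * Complex.I * ((i : ℂ) / 2 ^ m))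
    have hI : Complex.I ^ 2 = -1 := Complex.I_sq
    have e3 : (E * q - E) / (-(lam n : ℂ) * Complex.I) =
        E * (1 - q) * (-Complex.I / lam n) := by
      rw [div_eq_iff hc]
      field_simp
      linear_combination (E * (q - 1)) * hI
    rw [e3]
    ring
  · intro n _
    apply Continuous.intervalIntegrable
    fun_prop

theorem sti : STI := by
  intro c l D i
  obtain ⟨T, b, lam, hlam, h⟩ := dl_exp c l
  rw [HI_eq c l (l + D) i T b lam hlam h]
  set u2 : ℝ := 1 / 2 ^ (D + 1) with hu2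
  -- the inner integral
  have hin : ∀ v w : ℝ, (∫ φ in (0 : ℝ)..(2 * Real.pi), Complex.exp (-(φ : ℂ) * Complex.I) *
        dl c l (vs (pt l (Real.cos φ / 4)
          ((i : ℝ) / 2 ^ (l + D) + (v + w + Real.sin φ / 4) / 2 ^ l)))) =
      ∑ n ∈ T, b n * (Complex.exp (-(lam n : ℂ) / 2) *
        Complex.exp (-(lam n : ℂ) * Complex.I * ((i : ℂ) / 2 ^ (l + D))) *
        (-(2 * Real.pi * (lam n / (4 * 2 ^ l)) : ℝ)) *
        Complex.exp ((-(lam n : ℂ) * Complex.I / 2 ^ l) * v)) *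
        Complex.exp ((-(lam n : ℂ) * Complex.I / 2 ^ l) * w) := by
    intro v w
    have h1 : ∀ φ : ℝ, Complex.exp (-(φ : ℂ) * Complex.I) * dl c l (vs (pt l (Real.cos φ / 4)
          ((i : ℝ) / 2 ^ (l + D) + (v + w + Real.sin φ / 4) / 2 ^ l))) =
        ∑ n ∈ T, (b n * (Complex.exp (-(lam n : ℂ) / 2) *
        Complex.exp (-(lam n : ℂ) * Complex.I * ((i : ℂ) / 2 ^ (l + D))) *
        Complex.exp ((-(lam n : ℂ) * Complex.I / 2 ^ l) * v)) *
        Complex.exp ((-(lam n : ℂ) * Complex.I / 2 ^ l) * w)) *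
        (Complex.exp (-(φ : ℂ) * Complex.I) *
          Complex.exp (-((lam n / (4 * 2 ^ l) : ℝ) : ℂ) * Complex.exp ((φ : ℂ) * Complex.I))) := by
      intro φ
      rw [h, mul_sum]
      refine sum_congr rfl fun n _ => ?_
      have e1 : Complex.exp (-(lam n : ℂ) * pt l (Real.cos φ / 4)
          ((i : ℝ) / 2 ^ (l + D) + (v + w + Real.sin φ / 4) / 2 ^ l)) =
          Complex.exp (-(lam n : ℂ) / 2) *
        Complex.exp (-(lam n : ℂ) * Complex.I * ((i : ℂ) / 2 ^ (l + D))) *
        Complex.exp ((-(lam n : ℂ) * Complex.I / 2 ^ l) * v) *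
        Complex.exp ((-(lam n : ℂ) * Complex.I / 2 ^ l) * w) *
        Complex.exp (-((lam n / (4 * 2 ^ l) : ℝ) : ℂ) * Complex.exp ((φ : ℂ) * Complex.I)) := by
        rw [← Complex.exp_add, ← Complex.exp_add, ← Complex.exp_add, ← Complex.exp_add]
        congr 1
        rw [Complex.exp_mul_I]
        unfold pt
        push_cast
        field_simp
        ring
      rw [e1]
      ring
    simp only [h1]
    rw [intervalIntegral.integral_finsetSum]
    · refine sum_congr rfl fun n hn => ?_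
      rw [intervalIntegral.integral_const_mul,
        phi_integral _ (div_pos (hlam n hn) (by positivity))]
      push_cast
      ring
    · intro n _
      apply Continuous.intervalIntegrable
      fun_prop
  simp only [hin]
  have hV : ∀ n ∈ T, ∫ v in (0 : ℝ)..u2, Complex.exp ((-(lam n : ℂ) * Complex.I / 2 ^ l) * v) =
      (1 - Complex.exp (-(lam n : ℂ) * Complex.I * (1 / 2 ^ (l + D + 1)))) *
        (2 ^ l * (-Complex.I / lam n)) := by
    intro n hn
    have hl : (lam n : ℂ) ≠ 0 := by exact_mod_cast (hlam n hn).ne'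
    have h2 : (2 : ℂ) ^ l ≠ 0 := pow_ne_zero _ two_ne_zero
    have hc : (-(lam n : ℂ) * Complex.I / 2 ^ l) ≠ 0 :=
      div_ne_zero (mul_ne_zero (neg_ne_zero.mpr hl) Complex.I_ne_zero) h2
    rw [integral_exp_mul_complex hc, Complex.ofReal_zero, mul_zero, Complex.exp_zero]
    have e1 : (-(lam n : ℂ) * Complex.I / 2 ^ l) * ((u2 : ℝ) : ℂ) =
        -(lam n : ℂ) * Complex.I * (1 / 2 ^ (l + D + 1)) := by
      rw [hu2]
      push_cast
      rw [show l + D + 1 = l + (D + 1) by ring, pow_add 2 l (D + 1)]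
      field_simp
    rw [e1, div_eq_iff hc]
    set q := Complex.exp (-(lam n : ℂ) * Complex.I * (1 / 2 ^ (l + D + 1)))
    have hI : Complex.I ^ 2 = -1 := Complex.I_sq
    field_simp
    linear_combination (-(1 - q)) * hI
  have hmid : ∀ v : ℝ, (∫ w in (0 : ℝ)..u2, ∑ n ∈ T, b n * (Complex.exp (-(lam n : ℂ) / 2) *
        Complex.exp (-(lam n : ℂ) * Complex.I * ((i : ℂ) / 2 ^ (l + D))) *
        (-(2 * Real.pi * (lam n / (4 * 2 ^ l)) : ℝ)) *
        Complex.exp ((-(lam n : ℂ) * Complex.I / 2 ^ l) * v)) *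
        Complex.exp ((-(lam n : ℂ) * Complex.I / 2 ^ l) * w)) =
      ∑ n ∈ T, (b n * (Complex.exp (-(lam n : ℂ) / 2) *
        Complex.exp (-(lam n : ℂ) * Complex.I * ((i : ℂ) / 2 ^ (l + D))) *
        (-(2 * Real.pi * (lam n / (4 * 2 ^ l)) : ℝ))) *
        ((1 - Complex.exp (-(lam n : ℂ) * Complex.I * (1 / 2 ^ (l + D + 1)))) *
        (2 ^ l * (-Complex.I / lam n)))) *
        Complex.exp ((-(lam n : ℂ) * Complex.I / 2 ^ l) * v) := by
    intro v
    rw [intervalIntegral.integral_finsetSum]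
    · refine sum_congr rfl fun n hn => ?_
      rw [intervalIntegral.integral_const_mul, hV n hn]
      ring
    · intro n _
      apply Continuous.intervalIntegrable
      fun_prop
  simp only [hmid]
  rw [intervalIntegral.integral_finsetSum]
  · rw [mul_sum]
    refine sum_congr rfl fun n hn => ?_
    rw [intervalIntegral.integral_const_mul, hV n hn]
    have hl : (lam n : ℂ) ≠ 0 := by exact_mod_cast (hlam n hn).ne'
    have hpi : (Real.pi : ℂ) ≠ 0 := by exact_mod_cast Real.pi_ne_zero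
    have hI : Complex.I ^ 2 = -1 := Complex.I_sq
    set q := Complex.exp (-(lam n : ℂ) * Complex.I * (1 / 2 ^ (l + D + 1)))
    set E := Complex.exp (-(lam n : ℂ) * Complex.I * ((i : ℂ) / 2 ^ (l + D)))
    set G := Complex.exp (-(lam n : ℂ) / 2)
    push_cast
    have e1 : -Complex.I * (2 / (Real.pi : ℂ) / 2 ^ l) * (b n * (G * E *
        -(2 * (Real.pi : ℂ) * ((lam n : ℂ) / (4 * 2 ^ l)))) *
        ((1 - q) * (2 ^ l * (-Complex.I / lam n))) * ((1 - q) * (2 ^ l * (-Complex.I / lam n)))) =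
        b n * (G * E * (1 - q) ^ 2 * (Complex.I * Complex.I ^ 2 / lam n)) := by
      field_simp
      ring
    rw [e1, hI]
    ring
  · intro n _
    apply Continuous.intervalIntegrable
    fun_prop

theorem stii : STII := by
  intro c l m i
  obtain ⟨T, b, lam, hlam, h⟩ := dl_exp c l
  have h2 : (2 : ℂ) ^ l ≠ 0 := pow_ne_zero _ two_ne_zero
  have hx : ∀ τ x : ℝ, dl c l (vs (pt l x τ)) = ∑ n ∈ T, (b n * (Complex.exp (-(lam n : ℂ) / 2) *
      Complex.exp (-(lam n : ℂ) * Complex.I * τ))) *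
      Complex.exp ((-(lam n : ℂ) / 2 ^ l) * x) := by
    intro τ x
    rw [h]
    refine sum_congr rfl fun n _ => ?_
    have e1 : Complex.exp (-(lam n : ℂ) * pt l x τ) = Complex.exp (-(lam n : ℂ) / 2) *
      Complex.exp (-(lam n : ℂ) * Complex.I * τ) * Complex.exp ((-(lam n : ℂ) / 2 ^ l) * x) := by
      rw [← Complex.exp_add, ← Complex.exp_add]
      congr 1
      unfold pt
      push_cast
      field_simp
      ring
    rw [e1]
    ring
  have hre : ∀ n ∈ T, (-(lam n : ℂ) / 2 ^ l).re < 0 := by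
    intro n hn
    have e1 : (-(lam n : ℂ) / 2 ^ l) = ((-(lam n) / 2 ^ l : ℝ) : ℂ) := by push_cast; ring
    rw [e1, Complex.ofReal_re]
    exact div_neg_of_neg_of_pos (neg_neg_of_pos (hlam n hn)) (by positivity)
  have hint : ∀ τ : ℝ, IntegrableOn (fun x : ℝ => dl c l (vs (pt l x τ))) (Set.Ioi 0) := by
    intro τ
    simp only [hx]
    refine integrable_finsetSum _ fun n hn => ?_
    exact (integrableOn_exp_mul_complex_Ioi (hre n hn) 0).const_mul _
  have hval : ∀ τ : ℝ, ∫ x in Set.Ioi (0 : ℝ), dl c l (vs (pt l x τ)) =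
      ∑ n ∈ T, (b n * (Complex.exp (-(lam n : ℂ) / 2) *
      Complex.exp (-(lam n : ℂ) * Complex.I * τ))) * (2 ^ l / lam n) := by
    intro τ
    simp only [hx]
    rw [integral_finsetSum]
    · refine sum_congr rfl fun n hn => ?_
      have hl : (lam n : ℂ) ≠ 0 := by exact_mod_cast (hlam n hn).ne'
      rw [integral_const_mul, integral_exp_mul_complex_Ioi (hre n hn), Complex.ofReal_zero,
        mul_zero, Complex.exp_zero]
      congr 1
      field_simp
    · intro n hn
      exact (integrableOn_exp_mul_complex_Ioi (hre n hn) 0).const_mul _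
  refine ⟨hint, ?_⟩
  rw [HI_eq c l m i T b lam hlam h]
  have i1 := hint ((i : ℝ) / 2 ^ m + 1 / 2 ^ (m + 1))
  have i2 := hint ((i : ℝ) / 2 ^ m)
  have i3 := hint (((i : ℝ) + 1) / 2 ^ m)
  have i12 : Integrable (fun x : ℝ => 2 * dl c l (vs (pt l x ((i : ℝ) / 2 ^ m + 1 / 2 ^ (m + 1))))
      - dl c l (vs (pt l x ((i : ℝ) / 2 ^ m)))) (volume.restrict (Set.Ioi 0)) :=
    (i1.const_mul 2).sub i2
  have key : ∫ x in Set.Ioi (0 : ℝ),
      (2 * dl c l (vs (pt l x ((i : ℝ) / 2 ^ m + 1 / 2 ^ (m + 1)))) -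
        dl c l (vs (pt l x ((i : ℝ) / 2 ^ m))) - dl c l (vs (pt l x (((i : ℝ) + 1) / 2 ^ m)))) =
      2 * (∫ x in Set.Ioi (0 : ℝ), dl c l (vs (pt l x ((i : ℝ) / 2 ^ m + 1 / 2 ^ (m + 1))))) -
      (∫ x in Set.Ioi (0 : ℝ), dl c l (vs (pt l x ((i : ℝ) / 2 ^ m)))) -
      (∫ x in Set.Ioi (0 : ℝ), dl c l (vs (pt l x (((i : ℝ) + 1) / 2 ^ m)))) := by
    rw [integral_sub i12 i3, integral_sub (i1.const_mul 2) i2, integral_const_mul]
  rw [key, hval, hval, hval, mul_sum, ← sum_sub_distrib, ← sum_sub_distrib, mul_sum]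
  refine sum_congr rfl fun n hn => ?_
  have hl : (lam n : ℂ) ≠ 0 := by exact_mod_cast (hlam n hn).ne'
  have e1 : Complex.exp (-(lam n : ℂ) * Complex.I *
        (((i : ℝ) / 2 ^ m + 1 / 2 ^ (m + 1) : ℝ) : ℂ)) =
        Complex.exp (-(lam n : ℂ) * Complex.I * ((i : ℂ) / 2 ^ m)) *
        Complex.exp (-(lam n : ℂ) * Complex.I * (1 / 2 ^ (m + 1))) := by
    rw [← Complex.exp_add]
    congr 1
    push_cast
    ring
  have e2 : (((i : ℝ) / 2 ^ m : ℝ) : ℂ) = (i : ℂ) / 2 ^ m := by push_cast; ring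
  have e3 : Complex.exp (-(lam n : ℂ) * Complex.I * ((((i : ℝ) + 1) / 2 ^ m : ℝ) : ℂ)) =
        Complex.exp (-(lam n : ℂ) * Complex.I * ((i : ℂ) / 2 ^ m)) *
        Complex.exp (-(lam n : ℂ) * Complex.I * (1 / 2 ^ (m + 1))) ^ 2 := by
    rw [← Complex.exp_nat_mul, ← Complex.exp_add]
    congr 1
    push_cast
    field_simp
    ring
  rw [e1, e2, e3]
  push_cast
  field_simp
  ring

end Pool.Agent.W82.EM
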