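import Pool.Agent.W455.EM.Stm

/-!
# Disjoint choices, greedily
-/

set_option autoImplicit false

namespace Pool.Agent.W82.EM.GRE

open Finset Pool.Agent.W455.EM

theorem aux (n k : ℕ) (hk : 2 ≤ k) (D : Finset (Fin n)) (Y : Finset (Finset (Fin n)))
    (hY : ∀ T ∈ Y, T.card = k - 1) (hc : D.card * n ^ (k - 2) < Y.card) :
    ∃ T ∈ Y, Disjoint T D := by
  classical
  by_contra hcon
  push Not at hcon
  have hsub : Y ⊆ D.biUnion (fun d => ((univ : Finset (Fin n)).powersetCard (k - 2)).image
      (fun S => insert d S)) := by
    intro T hT
    have h1 := hcon T hT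
    rw [Finset.not_disjoint_iff] at h1
    obtain ⟨d, hdT, hdD⟩ := h1
    rw [Finset.mem_biUnion]
    refine ⟨d, hdD, ?_⟩
    rw [Finset.mem_image]
    refine ⟨T.erase d, ?_, Finset.insert_erase hdT⟩
    rw [Finset.mem_powersetCard]
    refine ⟨Finset.subset_univ _, ?_⟩
    rw [Finset.card_erase_of_mem hdT, hY T hT]
    omega
  have h2 : Y.card ≤ D.card * n ^ (k - 2) := by
    refine le_trans (Finset.card_le_card hsub) (Finset.card_biUnion_le_card_mul _ _ _ ?_)
    intro d _
    refine le_trans Finset.card_image_le ?_
    rw [Finset.card_powersetCard, Finset.card_univ, Fintype.card_fin]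
    exact Nat.choose_le_pow n (k - 2)
  omega

theorem main : S_GRE := by
  classical
  intro n k hk S X hX hc
  have key : ∀ S' : Finset (Fin n), S' ⊆ S → ∃ f : Fin n → Finset (Fin n),
      (∀ v ∈ S', f v ∈ X v) ∧ ∀ u ∈ S', ∀ v ∈ S', u ≠ v → Disjoint (f u) (f v) := by
    intro S'
    induction S' using Finset.induction_on with
    | empty =>
      intro _
      exact ⟨fun _ => ∅, by simp, by simp⟩
    | insert a s ha ih =>
      intro hs
      obtain ⟨f, hf1, hf2⟩ := ih (fun x hx => hs (Finset.mem_insert_of_mem hx))
      have haS : a ∈ S := hs (Finset.mem_insert_self a s)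
      have hD : (s.biUnion f).card ≤ s.card * (k - 1) := by
        refine Finset.card_biUnion_le_card_mul _ _ _ ?_
        intro v hv
        exact (hX v (hs (Finset.mem_insert_of_mem hv)) _ (hf1 v hv)).le
      have hsS : s.card ≤ S.card := Finset.card_le_card fun x hx => hs (Finset.mem_insert_of_mem hx)
      have hlt : (s.biUnion f).card * n ^ (k - 2) < (X a).card := by
        refine lt_of_le_of_lt (Nat.mul_le_mul_right _ ?_) (hc a haS)
        calc (s.biUnion f).card ≤ s.card * (k - 1) := hD
          _ ≤ S.card * k := Nat.mul_le_mul hsS (Nat.sub_le k 1)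
          _ = k * S.card := Nat.mul_comm _ _
      obtain ⟨T, hT, hTD⟩ := aux n k hk (s.biUnion f) (X a) (hX a haS) hlt
      have hdis : ∀ v ∈ s, Disjoint T (f v) := fun v hv =>
        (Finset.disjoint_biUnion_right T s f).1 hTD v hv
      refine ⟨fun v => if v = a then T else f v, ?_, ?_⟩
      · intro v hv
        by_cases hva : v = a
        · subst hva
          simpa using hT
        · have : v ∈ s := (Finset.mem_insert.1 hv).resolve_left hva
          simpa [hva] using hf1 v this
      · intro u hu v hv huv
        by_cases hua : u = a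
        · subst hua
          have hvu : v ≠ u := fun h => huv h.symm
          have : v ∈ s := (Finset.mem_insert.1 hv).resolve_left hvu
          simpa [hvu] using hdis v this
        · have hus : u ∈ s := (Finset.mem_insert.1 hu).resolve_left hua
          by_cases hva : v = a
          · subst hva
            simpa [hua] using (hdis u hus).symm
          · have hvs : v ∈ s := (Finset.mem_insert.1 hv).resolve_left hva
            simpa [hua, hva] using hf2 u hus v hvs huv
  exact key S (Finset.Subset.refl S)

end Pool.Agent.W82.EM.GRE
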